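import Mathlib

/-!
# Radial projection of weights to the unit sphere of the hyperplane `∑ xᵢ = 0`

`P a` is the orthogonal projection of the vector `a` to the hyperplane `∑ xᵢ = 0` of `ℝ^N`, and
`nP a` its normalisation. Nonnegative vectors which vanish at the same index give two points of the
unit sphere whose distance is at most `√(4 N / (N + 1)) < 2`.
-/

set_option autoImplicit false

open Finset

namespace Pool.Agent.W39.GP

variable {N : ℕ}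

/-- projection to the hyperplane `∑ xᵢ = 0` -/
noncomputable def P (a : Fin N → ℝ) : EuclideanSpace ℝ (Fin N) :=
  WithLp.toLp 2 (fun i => a i - (∑ j, a j) / N)

lemma P_apply (a : Fin N → ℝ) (i : Fin N) : P a i = a i - (∑ j, a j) / N := rfl

lemma P_add (a b : Fin N → ℝ) : P (a + b) = P a + P b := by
  ext i
  simp only [P_apply, Pi.add_apply, PiLp.add_apply, sum_add_distrib]
  ring

lemma P_sub (a b : Fin N → ℝ) : P (a - b) = P a - P b := by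
  ext i
  simp only [P_apply, Pi.sub_apply, PiLp.sub_apply, sum_sub_distrib]
  ring

lemma P_smul (c : ℝ) (a : Fin N → ℝ) : P (c • a) = c • P a := by
  ext i
  simp only [P_apply, Pi.smul_apply, PiLp.smul_apply, smul_eq_mul, ← mul_sum]
  ring

lemma P_cont : Continuous (P : (Fin N → ℝ) → EuclideanSpace ℝ (Fin N)) := by
  unfold P
  refine (PiLp.continuous_toLp 2 _).comp ?_
  fun_prop

lemma P_norm (hN : 0 < N) (a : Fin N → ℝ) : ‖P a‖ ^ 2 = ∑ i, a i ^ 2 - (∑ i, a i) ^ 2 / N := by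
  have hN' : (N : ℝ) ≠ 0 := by positivity
  rw [EuclideanSpace.norm_sq_eq]
  simp only [P_apply, Real.norm_eq_abs, sq_abs, sub_sq, sum_add_distrib, sum_sub_distrib, sum_const,
    card_univ, Fintype.card_fin, nsmul_eq_mul]
  rw [← Finset.sum_mul, ← Finset.mul_sum]
  field_simp
  ring

lemma P_norm_le (hN : 0 < N) (a : Fin N → ℝ) : ‖P a‖ ^ 2 ≤ ∑ i, a i ^ 2 := by
  rw [P_norm hN]
  have : 0 ≤ (∑ i, a i) ^ 2 / N := by positivity
  linarith

/-- a vector with a zero entry is not shortened much -/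
lemma P_norm_ge (hN : 0 < N) {a : Fin N → ℝ} {k : Fin N} (hk : a k = 0) :
    ∑ i, a i ^ 2 ≤ N * ‖P a‖ ^ 2 := by
  rw [P_norm hN]
  have hN' : (0 : ℝ) < N := by positivity
  have h1 : ∑ i, a i = ∑ i ∈ univ.erase k, a i := by
    rw [← add_sum_erase _ _ (mem_univ k), hk, zero_add]
  have h2 : ∑ i, a i ^ 2 = ∑ i ∈ univ.erase k, a i ^ 2 := by
    rw [← add_sum_erase _ _ (mem_univ k), hk]
    simp
  have h3 : (∑ i ∈ univ.erase k, a i) ^ 2 ≤ #(univ.erase k) * ∑ i ∈ univ.erase k, a i ^ 2 :=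
    sq_sum_le_card_mul_sum_sq
  have h4 : (#(univ.erase k) : ℝ) = N - 1 := by
    rw [card_erase_of_mem (mem_univ k), card_univ, Fintype.card_fin, Nat.cast_sub hN, Nat.cast_one]
  rw [h4, ← h1, ← h2] at h3
  have h5 : (N : ℝ) * (∑ i, a i ^ 2 - (∑ i, a i) ^ 2 / N) = N * ∑ i, a i ^ 2 - (∑ i, a i) ^ 2 := by
    field_simp
  rw [h5]
  linarith

lemma P_pos (hN : 0 < N) {a : Fin N → ℝ} {k j : Fin N} (hk : a k = 0) (hj : a j ≠ 0) : 0 < ‖P a‖ := by
  have h1 := P_norm_ge hN hk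
  have h2 : a j ^ 2 ≤ ∑ i, a i ^ 2 :=
    single_le_sum (f := fun i => a i ^ 2) (fun i _ => sq_nonneg _) (mem_univ j)
  have h3 : 0 < a j ^ 2 := by positivity
  rcases (norm_nonneg (P a)).lt_or_eq with h | h
  · exact h
  · rw [← h] at h1
    norm_num at h1
    linarith

/-- the normalised projection -/
noncomputable def nP (a : Fin N → ℝ) : EuclideanSpace ℝ (Fin N) := ‖P a‖⁻¹ • P a

lemma nP_norm {a : Fin N → ℝ} (h : 0 < ‖P a‖) : ‖nP a‖ = 1 := by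
  unfold nP
  rw [norm_smul, norm_inv, norm_norm, inv_mul_cancel₀ h.ne']

lemma nP_eq (a : Fin N → ℝ) : nP a = P (‖P a‖⁻¹ • a) := by
  rw [P_smul]
  rfl

lemma nP_smul {c : ℝ} (hc : 0 < c) (a : Fin N → ℝ) : nP (c • a) = nP a := by
  unfold nP
  rw [P_smul, norm_smul, Real.norm_eq_abs, abs_of_pos hc, smul_smul, mul_inv, mul_assoc, mul_comm,
    mul_assoc, mul_inv_cancel₀ hc.ne', mul_one]

/-- two points in the same closed simplex -/
theorem same_cone (hN : 0 < N) {a b : Fin N → ℝ} {k : Fin N} (hak : a k = 0) (hbk : b k = 0)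
    (ha : ∀ i, 0 ≤ a i) (hb : ∀ i, 0 ≤ b i) (hPa : 0 < ‖P a‖) (hPb : 0 < ‖P b‖) :
    ‖nP a - nP b‖ ^ 2 ≤ 4 * N / (N + 1) := by
  set a' : Fin N → ℝ := ‖P a‖⁻¹ • a with ha'
  set b' : Fin N → ℝ := ‖P b‖⁻¹ • b with hb'
  have e1 : nP a = P a' := nP_eq a
  have e2 : nP b = P b' := nP_eq b
  have n1 : ‖P a'‖ = 1 := by rw [← e1]; exact nP_norm hPa
  have n2 : ‖P b'‖ = 1 := by rw [← e2]; exact nP_norm hPb
  have h1 : ‖P (a' - b')‖ ^ 2 ≤ ∑ i, (a' i - b' i) ^ 2 := P_norm_le hN _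
  have h2 : ∑ i, (a' i + b' i) ^ 2 ≤ N * ‖P (a' + b')‖ ^ 2 :=
    P_norm_ge (a := a' + b') (k := k) hN (by simp [ha', hb', hak, hbk])
  have h3 : ∑ i, (a' i - b' i) ^ 2 ≤ ∑ i, (a' i + b' i) ^ 2 := by
    refine sum_le_sum fun i _ => ?_
    have p1 : 0 ≤ a' i := mul_nonneg (inv_nonneg.2 hPa.le) (ha i)
    have p2 : 0 ≤ b' i := mul_nonneg (inv_nonneg.2 hPb.le) (hb i)
    nlinarith [mul_nonneg p1 p2]
  have h4 : ‖P a' + P b'‖ ^ 2 + ‖P a' - P b'‖ ^ 2 = 4 := by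
    have := parallelogram_law_with_norm ℝ (P a') (P b')
    rw [n1, n2] at this
    nlinarith
  rw [e1, e2, le_div_iff₀ (by positivity)]
  rw [P_sub] at h1
  rw [P_add] at h2
  nlinarith

lemma normalise_sub {E : Type*} [NormedAddCommGroup E] [NormedSpace ℝ E] {u v : E} (hu : 0 < ‖u‖)
    (hv : 0 < ‖v‖) : ‖‖u‖⁻¹ • u - ‖v‖⁻¹ • v‖ ≤ 2 * ‖u - v‖ / ‖u‖ := by
  have e : ‖u‖⁻¹ • u - ‖v‖⁻¹ • v = ‖u‖⁻¹ • (u - v) + (‖u‖⁻¹ - ‖v‖⁻¹) • v := by
    rw [smul_sub, sub_smul]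
    abel
  rw [e]
  refine (norm_add_le _ _).trans ?_
  rw [norm_smul, norm_smul, norm_inv, norm_norm, Real.norm_eq_abs]
  have h1 : |‖u‖⁻¹ - ‖v‖⁻¹| * ‖v‖ ≤ ‖u - v‖ / ‖u‖ := by
    have h2 : ‖u‖⁻¹ - ‖v‖⁻¹ = (‖v‖ - ‖u‖) / (‖u‖ * ‖v‖) := by field_simp
    rw [h2, abs_div, abs_of_pos (mul_pos hu hv)]
    have h3 : |‖v‖ - ‖u‖| ≤ ‖u - v‖ := by
      rw [norm_sub_rev]
      exact abs_norm_sub_norm_le v u
    rw [div_mul_eq_mul_div, div_le_div_iff₀ (mul_pos hu hv) hu]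
    nlinarith [mul_le_mul_of_nonneg_right h3 (mul_pos hu hv).le]
  have h4 : ‖u‖⁻¹ * ‖u - v‖ = ‖u - v‖ / ‖u‖ := by rw [inv_mul_eq_div]
  rw [h4]
  have h5 : 2 * ‖u - v‖ / ‖u‖ = ‖u - v‖ / ‖u‖ + ‖u - v‖ / ‖u‖ := by ring
  rw [h5]
  linarith

/-- removing a small entry changes the point of the sphere by little -/
theorem drop_entry (hN : 0 < N) {a : Fin N → ℝ} {k j l : Fin N} (hl : a l = 0) (hjk : j ≠ k)
    (hj : 0 < a j) (ha : ∀ i, 0 ≤ a i) {θ : ℝ} (hθ : a k ≤ θ * a j) :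
    0 < ‖P (Function.update a k 0)‖ ∧ ‖nP a - nP (Function.update a k 0)‖ ≤ 2 * √N * θ := by
  set b := Function.update a k 0 with hb
  have hbk : b k = 0 := by rw [hb]; simp
  have hbj : b j = a j := by rw [hb]; simp [hjk]
  have hPb : 0 < ‖P b‖ := P_pos hN hbk (by rw [hbj]; exact hj.ne')
  have hPa : 0 < ‖P a‖ := P_pos hN hl hj.ne'
  refine ⟨hPb, ?_⟩
  refine (normalise_sub hPa hPb).trans ?_
  rw [← P_sub]
  have h1 : ‖P (a - b)‖ ≤ a k := by
    have h2 := P_norm_le hN (a - b)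
    have h3 : ∑ i, (a - b) i ^ 2 = a k ^ 2 := by
      rw [← add_sum_erase _ _ (mem_univ k)]
      have h4 : ∑ i ∈ univ.erase k, (a - b) i ^ 2 = 0 := by
        refine sum_eq_zero fun i hi => ?_
        have : i ≠ k := (mem_erase.1 hi).1
        rw [Pi.sub_apply, hb, Function.update_of_ne this, sub_self]
        norm_num
      rw [h4, add_zero, Pi.sub_apply, hbk, sub_zero]
    rw [h3] at h2
    exact le_of_sq_le_sq h2 (ha k)
  have h5 : a j ≤ √N * ‖P a‖ := by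
    have h6 := P_norm_ge hN hl
    have h7 : a j ^ 2 ≤ ∑ i, a i ^ 2 :=
      single_le_sum (f := fun i => a i ^ 2) (fun i _ => sq_nonneg _) (mem_univ j)
    refine le_of_sq_le_sq ?_ (by positivity)
    rw [mul_pow, Real.sq_sqrt (by positivity)]
    linarith
  have hθ0 : 0 ≤ θ := by
    by_contra hc
    push Not at hc
    nlinarith [ha k]
  rw [div_le_iff₀ hPa]
  calc 2 * ‖P (a - b)‖ ≤ 2 * (θ * a j) := by linarith
    _ ≤ 2 * (θ * (√N * ‖P a‖)) := by gcongr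
    _ = 2 * √N * θ * ‖P a‖ := by ring

end Pool.Agent.W39.GP
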