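import Mathlib
import Pool.Agent.W39.GP.A

/-!
# Sharpening the barycentric coordinates

A point `x` of the unit sphere of the hyperplane `∑ xᵢ = 0` has the barycentric coordinates
`s_i = x_i - min x ≥ 0`. For weights `c_i ∈ [1, 2]` and `p ≥ 1` the point is moved to the normalised
projection of `((c_i s_i)^p)_i`. Points which are close to each other stay, uniformly in `p`, at a
distance of at most `√(4 N / (N + 1)) + small`; for `p → ∞` the point tends to a vertex.
-/

set_option autoImplicit false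

open Finset Filter Topology

namespace Pool.Agent.W39.GP

variable {N : ℕ}

/-- the smallest coordinate -/
noncomputable def mn [NeZero N] (x : Fin N → ℝ) : ℝ := univ.inf' univ_nonempty x

lemma mn_le [NeZero N] (x : Fin N → ℝ) (i : Fin N) : mn x ≤ x i := inf'_le _ (mem_univ i)

lemma mn_attained [NeZero N] (x : Fin N → ℝ) : ∃ k, x k = mn x := by
  obtain ⟨k, -, hk⟩ := exists_mem_eq_inf' (univ_nonempty (α := Fin N)) x
  exact ⟨k, hk.symm⟩

lemma mn_cont [NeZero N] : Continuous (mn : (Fin N → ℝ) → ℝ) := by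
  have h : (mn : (Fin N → ℝ) → ℝ) = fun x => univ.inf' univ_nonempty (fun i => x i) := rfl
  rw [h]
  refine Continuous.finset_inf'_apply _ fun i _ => ?_
  fun_prop

/-- the barycentric coordinates -/
noncomputable def sc [NeZero N] (x : Fin N → ℝ) (i : Fin N) : ℝ := x i - mn x

lemma sc_nonneg [NeZero N] (x : Fin N → ℝ) (i : Fin N) : 0 ≤ sc x i := sub_nonneg.2 (mn_le x i)

lemma sc_zero [NeZero N] (x : Fin N → ℝ) : ∃ k, sc x k = 0 := by
  obtain ⟨k, hk⟩ := mn_attained x
  exact ⟨k, by unfold sc; rw [hk, sub_self]⟩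

lemma sc_cont [NeZero N] (i : Fin N) : Continuous (fun x : Fin N → ℝ => sc x i) := by
  unfold sc
  exact (continuous_apply i).sub mn_cont

/-- a point of the unit sphere of the hyperplane has a large barycentric coordinate -/
lemma sc_large [NeZero N] {x : Fin N → ℝ} (h0 : ∑ i, x i = 0) (h1 : ∑ i, x i ^ 2 = 1) :
    ∃ j, 1 / √N ≤ sc x j := by
  have hN : (0 : ℝ) < N := by exact_mod_cast Nat.pos_of_ne_zero (NeZero.ne N)
  have hs : 0 < √(N : ℝ) := Real.sqrt_pos.2 hN
  by_contra hcon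
  push Not at hcon
  have hm : mn x ≤ 0 := by
    by_contra h
    push Not at h
    have : 0 < ∑ i, x i := sum_pos (fun i _ => h.trans_le (mn_le x i)) univ_nonempty
    linarith
  -- some coordinate is `≥ 0`
  obtain ⟨l, hl⟩ : ∃ l, 0 ≤ x l := by
    by_contra h
    push Not at h
    have : ∑ i, x i < 0 := sum_neg (fun i _ => h i) univ_nonempty
    linarith
  have hmn : -(1 / √N) < mn x := by
    have := hcon l
    unfold sc at this
    linarith
  have hb : ∀ i, x i ^ 2 < 1 / N := by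
    intro i
    have h2 : |x i| < 1 / √N := by
      rw [abs_lt]
      refine ⟨by linarith [mn_le x i], ?_⟩
      have := hcon i
      unfold sc at this
      linarith
    have h3 : x i ^ 2 < (1 / √N) ^ 2 := by
      rw [← sq_abs]
      exact pow_lt_pow_left₀ h2 (abs_nonneg _) two_ne_zero
    rwa [div_pow, Real.sq_sqrt hN.le, one_pow] at h3
  have : ∑ i, x i ^ 2 < ∑ _i : Fin N, 1 / (N : ℝ) := sum_lt_sum_of_nonempty univ_nonempty fun i _ => hb i
  rw [sum_const, card_univ, Fintype.card_fin, nsmul_eq_mul, mul_one_div_cancel hN.ne', h1] at this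
  exact lt_irrefl _ this

lemma P_sc [NeZero N] {x : Fin N → ℝ} (h0 : ∑ i, x i = 0) : P (sc x) = WithLp.toLp 2 x := by
  have hN : (N : ℝ) ≠ 0 := by exact_mod_cast NeZero.ne N
  ext i
  rw [P_apply]
  unfold sc
  simp only [sum_sub_distrib, h0, sum_const, card_univ, Fintype.card_fin, nsmul_eq_mul]
  field_simp
  ring

/-- the sharpened weights -/
noncomputable def sh [NeZero N] (c : Fin N → ℝ) (p : ℕ) (x : Fin N → ℝ) (i : Fin N) : ℝ :=
  (c i * sc x i) ^ p

section

variable [NeZero N] {c : Fin N → ℝ} (hc1 : ∀ i, 1 ≤ c i) (hc2 : ∀ i, c i ≤ 2)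

include hc1

lemma sh_nonneg (p : ℕ) (x : Fin N → ℝ) (i : Fin N) : 0 ≤ sh c p x i :=
  pow_nonneg (mul_nonneg (by linarith [hc1 i]) (sc_nonneg x i)) _

lemma sh_large {p : ℕ} {x : Fin N → ℝ} {j : Fin N} (hj : 1 / √N ≤ sc x j) :
    (1 / √N) ^ p ≤ sh c p x j := by
  unfold sh
  refine pow_le_pow_left₀ (by positivity) ?_ p
  have := sc_nonneg x j
  nlinarith [hc1 j]

omit hc1 in
lemma sh_zero {p : ℕ} (hp : 1 ≤ p) {x : Fin N → ℝ} {k : Fin N} (hk : sc x k = 0) : sh c p x k = 0 := by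
  unfold sh
  rw [hk, mul_zero, zero_pow (by omega)]

lemma sh_pos {p : ℕ} (hp : 1 ≤ p) {x : Fin N → ℝ} (h0 : ∑ i, x i = 0) (h1 : ∑ i, x i ^ 2 = 1) :
    0 < ‖P (sh c p x)‖ := by
  obtain ⟨k, hk⟩ := sc_zero x
  obtain ⟨j, hj⟩ := sc_large h0 h1
  have hN : 0 < N := Nat.pos_of_ne_zero (NeZero.ne N)
  have hpos : (0 : ℝ) < (1 / √N) ^ p := by positivity
  exact P_pos hN (sh_zero hp hk) (hpos.trans_le (sh_large hc1 hj)).ne'

include hc2

/-- points which are close to each other stay within a bounded distance, uniformly in `p` -/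
theorem sh_close {p : ℕ} (hp : 1 ≤ p) {x y : Fin N → ℝ} (hx0 : ∑ i, x i = 0) (hx1 : ∑ i, x i ^ 2 = 1)
    (hy0 : ∑ i, y i = 0) (hy1 : ∑ i, y i ^ 2 = 1) {r : ℝ} (hr : ∀ i, |x i - y i| ≤ r)
    (hr1 : 4 * r * √N ≤ 1) :
    ‖nP (sh c p x) - nP (sh c p y)‖ ≤ √(4 * N / (N + 1)) + 8 * N * r := by
  have hN : 0 < N := Nat.pos_of_ne_zero (NeZero.ne N)
  have hN' : (0 : ℝ) < N := by exact_mod_cast hN
  have hs : 0 < √(N : ℝ) := Real.sqrt_pos.2 hN'
  have hr0 : 0 ≤ r := (abs_nonneg _).trans (hr ⟨0, hN⟩)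
  obtain ⟨k, hk⟩ := sc_zero x
  obtain ⟨l, hl⟩ := sc_zero y
  obtain ⟨j, hj⟩ := sc_large hy0 hy1
  obtain ⟨j', hj'⟩ := sc_large hx0 hx1
  have hmn : mn x - r ≤ mn y := by
    unfold sc at hl
    have := (abs_le.1 (hr l)).2
    linarith [mn_le x l]
  have hyk : sc y k ≤ 2 * r := by
    unfold sc at hk ⊢
    have := (abs_le.1 (hr k)).1
    linarith
  have hjk : j ≠ k := by
    rintro rfl
    have h2 : 1 / √N ≤ 2 * r := hj.trans hyk
    rw [div_le_iff₀ hs] at h2
    nlinarith
  have hθ : sh c p y k ≤ (4 * r * √N) * sh c p y j := by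
    have h3 : sh c p y k ≤ (4 * r) ^ p := by
      unfold sh
      refine pow_le_pow_left₀ (mul_nonneg (by linarith [hc1 k]) (sc_nonneg y k)) ?_ p
      have := sc_nonneg y k
      nlinarith [hc2 k, hc1 k]
    have h4 := sh_large (p := p) hc1 hj
    have h5 : (4 * r) ^ p = (4 * r * √N) ^ p * (1 / √N) ^ p := by
      rw [← mul_pow]
      congr 1
      field_simp
    have h6 : (4 * r * √N) ^ p ≤ 4 * r * √N :=
      pow_le_of_le_one (by positivity) hr1 (by omega)
    calc sh c p y k ≤ (4 * r * √N) ^ p * (1 / √N) ^ p := by rw [← h5]; exact h3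
      _ ≤ (4 * r * √N) * sh c p y j := by gcongr
  obtain ⟨h7, h8⟩ := drop_entry hN (a := sh c p y) (k := k) (j := j) (l := l) (sh_zero hp hl) hjk
    (lt_of_lt_of_le (by positivity) (sh_large hc1 hj)) (sh_nonneg hc1 p y) hθ
  have h9 : ‖nP (sh c p x) - nP (Function.update (sh c p y) k 0)‖ ≤ √(4 * N / (N + 1)) := by
    refine Real.le_sqrt_of_sq_le ?_
    refine same_cone hN (k := k) (sh_zero hp hk) (by simp) (sh_nonneg hc1 p x) (fun i => ?_)
      (sh_pos hc1 hp hx0 hx1) h7
    by_cases hi : i = k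
    · rw [hi]; simp
    · rw [Function.update_of_ne hi]; exact sh_nonneg hc1 p y i
  have h10 : nP (sh c p x) - nP (sh c p y) = (nP (sh c p x) - nP (Function.update (sh c p y) k 0)) -
      (nP (sh c p y) - nP (Function.update (sh c p y) k 0)) := by abel
  rw [h10]
  refine (norm_sub_le _ _).trans ?_
  have h11 : 2 * √N * (4 * r * √N) = 8 * N * r := by
    have := Real.mul_self_sqrt hN'.le
    linear_combination (8 * r) * this
  rw [h11] at h8
  linarith

end

/-- the vertices -/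
noncomputable def vx (j : Fin N) : EuclideanSpace ℝ (Fin N) := nP (Pi.single j 1)

lemma vx_dist (hN : 3 ≤ N) (i j : Fin N) : ‖vx i - vx j‖ ≤ √(4 * N / (N + 1)) := by
  obtain ⟨k, hki, hkj⟩ : ∃ k : Fin N, k ≠ i ∧ k ≠ j := by
    have h1 : ({i, j} : Finset (Fin N)).card < (univ : Finset (Fin N)).card := by
      rw [card_univ, Fintype.card_fin]
      exact (card_le_two).trans_lt (by omega)
    obtain ⟨k, -, hk⟩ := exists_mem_notMem_of_card_lt_card h1
    simp only [mem_insert, mem_singleton, not_or] at hk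
    exact ⟨k, hk.1, hk.2⟩
  have hz : ∀ l : Fin N, k ≠ l → (Pi.single l 1 : Fin N → ℝ) k = 0 := fun l hl => by simp [hl]
  have hn : ∀ l : Fin N, ∀ i, 0 ≤ (Pi.single l 1 : Fin N → ℝ) i := by
    intro l i
    by_cases h : i = l
    · subst h; simp
    · simp [h]
  have hp : ∀ l : Fin N, k ≠ l → 0 < ‖P (Pi.single l 1 : Fin N → ℝ)‖ := fun l hl =>
    P_pos (by omega) (hz l hl) (j := l) (by simp)
  refine Real.le_sqrt_of_sq_le ?_
  exact same_cone (by omega) (hz i hki) (hz j hkj) (hn i) (hn j) (hp i hki) (hp j hkj)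

lemma nP_contAt {a : Fin N → ℝ} (h : 0 < ‖P a‖) : ContinuousAt nP a := by
  unfold nP
  exact (P_cont.norm.continuousAt.inv₀ h.ne').smul P_cont.continuousAt

/-- for `p → ∞` the point tends to a vertex -/
theorem sh_tendsto [NeZero N] (hN : 2 ≤ N) {c : Fin N → ℝ} (hc1 : ∀ i, 1 ≤ c i) {x : Fin N → ℝ}
    (h0 : ∑ i, x i = 0) (h1 : ∑ i, x i ^ 2 = 1)
    (hgen : ∀ i j, i ≠ j → 0 < sc x i → c i * sc x i ≠ c j * sc x j) :
    ∃ j, Tendsto (fun p : ℕ => nP (sh c p x)) atTop (𝓝 (vx j)) := by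
  obtain ⟨j, -, hj⟩ := exists_max_image univ (fun i => c i * sc x i) univ_nonempty
  obtain ⟨l, hl⟩ := sc_large h0 h1
  have hN' : (0 : ℝ) < N := by positivity
  have hpos : 0 < c j * sc x j := by
    have h2 := hj l (mem_univ l)
    have h3 : 0 < 1 / √(N : ℝ) := by positivity
    have h4 : 0 < sc x l := h3.trans_le hl
    have h5 : 0 < c l * sc x l := mul_pos (by linarith [hc1 l]) h4
    linarith
  refine ⟨j, ?_⟩
  have hlt : ∀ i, i ≠ j → c i * sc x i < c j * sc x j := by
    intro i hi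
    refine lt_of_le_of_ne (hj i (mem_univ i)) ?_
    intro he
    have : 0 < sc x i := by
      rcases (sc_nonneg x i).lt_or_eq with h | h
      · exact h
      · rw [← h, mul_zero] at he
        linarith
    exact hgen i j hi this he
  have hscale : ∀ p : ℕ, nP (sh c p x) = nP (fun i => (c i * sc x i / (c j * sc x j)) ^ p) := by
    intro p
    have h6 : (fun i => (c i * sc x i / (c j * sc x j)) ^ p) = ((c j * sc x j) ^ p)⁻¹ • sh c p x := by
      funext i
      rw [Pi.smul_apply, smul_eq_mul, div_pow]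
      unfold sh
      ring
    rw [h6, nP_smul (by positivity)]
  simp_rw [hscale]
  have h7 : Tendsto (fun p : ℕ => fun i => (c i * sc x i / (c j * sc x j)) ^ p) atTop
      (𝓝 (Pi.single j 1 : Fin N → ℝ)) := by
    rw [tendsto_pi_nhds]
    intro i
    by_cases hi : i = j
    · subst hi
      simp [div_self hpos.ne']
    · rw [Pi.single_eq_of_ne hi]
      refine tendsto_pow_atTop_nhds_zero_of_lt_one ?_ ?_
      · exact div_nonneg (mul_nonneg (by linarith [hc1 i]) (sc_nonneg x i)) hpos.le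
      · rw [div_lt_one hpos]
        exact hlt i hi
  obtain ⟨k, hk⟩ : ∃ k : Fin N, k ≠ j := by
    have : Nontrivial (Fin N) := Fin.nontrivial_iff_two_le.2 hN
    exact exists_ne j
  have h8 : 0 < ‖P (Pi.single j 1 : Fin N → ℝ)‖ :=
    P_pos (k := k) (j := j) (by omega) (by simp [hk]) (by simp)
  exact (nP_contAt h8).tendsto.comp h7

end Pool.Agent.W39.GP
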