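import Mathlib
import Pool.Agent.W39.GP.B

/-!
# Homotopic maps with a small gap potential

`Y` is a compact metric space with a finite measure `μ`. Every continuous map `g` of `Y` to the unit
sphere `S^n` of `ℝ^(n+1)` is homotopic to maps whose gap potential (for a kernel which is bounded off
the diagonal) at the level `ε > √(4 (n + 2) / (n + 3))` is as small as we want.
-/

set_option autoImplicit false

open Finset Filter Topology MeasureTheory

namespace Pool.Agent.W39.GP

/-- generic weights: no ties almost everywhere -/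
theorem generic {Y : Type*} [MeasurableSpace Y] (μ : Measure Y) [IsFiniteMeasure μ] {N : ℕ}
    (hN : 0 < N) (s : Y → Fin N → ℝ) (hs : ∀ i, Measurable fun y => s y i) :
    ∃ t ∈ Set.Ioo (0 : ℝ) (1 / N), ∀ᵐ y ∂μ, ∀ i j : Fin N, i ≠ j → 0 < s y i →
      (1 + (i : ℝ) * t) * s y i ≠ (1 + (j : ℝ) * t) * s y j := by
  have hN' : (0 : ℝ) < N := by exact_mod_cast hN
  set A : Fin N → Fin N → Set.Ioo (0 : ℝ) (1 / N) → Set Y := fun i j t =>
    {y | 0 < s y i ∧ (1 + (i : ℝ) * t) * s y i = (1 + (j : ℝ) * t) * s y j} with hA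
  have hmeas : ∀ i j t, MeasurableSet (A i j t) := by
    intro i j t
    refine (measurableSet_lt measurable_const (hs i)).inter ?_
    exact measurableSet_eq_fun ((hs i).const_mul _) ((hs j).const_mul _)
  have hdisj : ∀ i j, i ≠ j → Pairwise (Function.onFun Disjoint (A i j)) := by
    intro i j hij t t' htt
    rw [Function.onFun, Set.disjoint_left]
    rintro y ⟨h1, h2⟩ ⟨-, h3⟩
    have h4 : ((t : ℝ) - t') * ((j : ℝ) * s y j - i * s y i) = 0 := by linear_combination h3 - h2
    rcases mul_eq_zero.1 h4 with h5 | h5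
    · exact htt (Subtype.ext (by linarith))
    · have h6 : s y i = s y j := by linear_combination h2 + (t : ℝ) * h5
      rw [← h6] at h5
      have h7 : ((j : ℝ) - i) * s y i = 0 := by linear_combination h5
      rcases mul_eq_zero.1 h7 with h8 | h8
      · apply hij
        have : (i : ℝ) = j := by linarith
        exact Fin.ext (by exact_mod_cast this)
      · exact h1.ne' h8
  have hcount : ∀ i j, i ≠ j → Set.Countable {t | 0 < μ (A i j t)} := fun i j hij =>
    Measure.countable_meas_pos_of_disjoint_iUnion (fun t => hmeas i j t) (hdisj i j hij)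
  set B : Set ℝ := ⋃ i : Fin N, ⋃ j : Fin N, ⋃ _ : i ≠ j, Subtype.val '' {t | 0 < μ (A i j t)} with hB
  have hBc : B.Countable := by
    refine Set.countable_iUnion fun i => Set.countable_iUnion fun j => Set.countable_iUnion fun h => ?_
    exact (hcount i j h).image _
  obtain ⟨t, htB, ht⟩ : ∃ t ∈ Bᶜ, t ∈ Set.Ioo (0 : ℝ) (1 / N) := by
    have hd := hBc.dense_compl ℝ
    obtain ⟨t, h1, h2⟩ := hd.exists_mem_open isOpen_Ioo (Set.nonempty_Ioo.2 (show (0 : ℝ) < 1 / N by positivity))
    exact ⟨t, h1, h2⟩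
  refine ⟨t, ht, ?_⟩
  rw [ae_all_iff]
  intro i
  rw [ae_all_iff]
  intro j
  by_cases hij : i = j
  · exact Eventually.of_forall fun y h => absurd hij h
  have h0 : μ (A i j ⟨t, ht⟩) = 0 := by
    by_contra h
    apply htB
    rw [hB]
    simp only [Set.mem_iUnion]
    exact ⟨i, j, hij, ⟨t, ht⟩, pos_iff_ne_zero.2 h, rfl⟩
  have h1 : ∀ᵐ y ∂μ, y ∉ A i j ⟨t, ht⟩ := measure_eq_zero_iff_ae_notMem.1 h0
  filter_upwards [h1] with y hy _ hpos heq
  exact hy ⟨hpos, heq⟩

section Transport

variable (n : ℕ)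

/-- the vector `(1, ..., 1)` -/
noncomputable def one : EuclideanSpace ℝ (Fin (n + 2)) := WithLp.toLp 2 (fun _ => 1)

lemma one_ne : one n ≠ 0 := by
  intro h
  have := congrArg (fun v : EuclideanSpace ℝ (Fin (n + 2)) => v 0) h
  simp [one] at this

instance : Fact (Module.finrank ℝ (EuclideanSpace ℝ (Fin (n + 2))) = n + 1 + 1) := ⟨by simp⟩

/-- the hyperplane -/
noncomputable abbrev W : Submodule ℝ (EuclideanSpace ℝ (Fin (n + 2))) := (Submodule.span ℝ {one n})ᗮ

lemma mem_W (w : EuclideanSpace ℝ (Fin (n + 2))) : w ∈ W n ↔ ∑ i, w i = 0 := by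
  rw [W, Submodule.mem_orthogonal_singleton_iff_inner_right, PiLp.inner_apply]
  simp [one]

/-- coordinates on the hyperplane -/
noncomputable def rp : W n ≃ₗᵢ[ℝ] EuclideanSpace ℝ (Fin (n + 1)) :=
  (OrthonormalBasis.fromOrthogonalSpanSingleton (n + 1) (one_ne n)).repr

/-- the embedding of `ℝ^(n+1)` as the hyperplane -/
noncomputable def io (x : EuclideanSpace ℝ (Fin (n + 1))) : Fin (n + 2) → ℝ :=
  fun i => ((rp n).symm x : EuclideanSpace ℝ (Fin (n + 2))) i

lemma io_cont : Continuous (io n) := by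
  refine continuous_pi fun i => ?_
  unfold io
  have h1 : Continuous fun x : EuclideanSpace ℝ (Fin (n + 1)) =>
      ((rp n).symm x : EuclideanSpace ℝ (Fin (n + 2))) :=
    continuous_subtype_val.comp (rp n).symm.continuous
  exact (PiLp.continuous_apply 2 _ i).comp h1

lemma io_sum (x : EuclideanSpace ℝ (Fin (n + 1))) : ∑ i, io n x i = 0 :=
  (mem_W n _).1 ((rp n).symm x).2

lemma io_sq (x : EuclideanSpace ℝ (Fin (n + 1))) : ∑ i, io n x i ^ 2 = ‖x‖ ^ 2 := by
  have h1 : ‖((rp n).symm x : EuclideanSpace ℝ (Fin (n + 2)))‖ = ‖x‖ := by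
    rw [← Submodule.coe_norm, LinearIsometryEquiv.norm_map]
  rw [← h1, EuclideanSpace.norm_sq_eq]
  simp only [Real.norm_eq_abs, sq_abs]
  rfl

lemma io_sub (x y : EuclideanSpace ℝ (Fin (n + 1))) (i : Fin (n + 2)) :
    |io n x i - io n y i| ≤ ‖x - y‖ := by
  have h1 : ∑ i, io n (x - y) i ^ 2 = ‖x - y‖ ^ 2 := io_sq n _
  have h2 : io n x i - io n y i = io n (x - y) i := by
    unfold io
    rw [map_sub]
    rfl
  rw [h2]
  refine abs_le_of_sq_le_sq ?_ (norm_nonneg _)
  rw [← h1]
  exact single_le_sum (f := fun i => io n (x - y) i ^ 2) (fun i _ => sq_nonneg _) (mem_univ i)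

/-- the projection back to `ℝ^(n+1)` -/
noncomputable def Tr : EuclideanSpace ℝ (Fin (n + 2)) →L[ℝ] EuclideanSpace ℝ (Fin (n + 1)) :=
  ((rp n).toContinuousLinearEquiv : W n →L[ℝ] EuclideanSpace ℝ (Fin (n + 1))).comp
    (W n).orthogonalProjectionOnto

lemma Tr_norm {w : EuclideanSpace ℝ (Fin (n + 2))} (hw : w ∈ W n) : ‖Tr n w‖ = ‖w‖ := by
  have h1 : Tr n w = rp n ((W n).orthogonalProjectionOnto w) := rfl
  have h2 : (((W n).orthogonalProjectionOnto w : W n) : EuclideanSpace ℝ (Fin (n + 2))) = w := by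
    have h3 := Submodule.orthogonalProjectionOnto_mem_subspace_eq_self (K := W n) ⟨w, hw⟩
    rw [h3]
  rw [h1, LinearIsometryEquiv.norm_map, Submodule.coe_norm, h2]

lemma Tr_io (x : EuclideanSpace ℝ (Fin (n + 1))) : Tr n (WithLp.toLp 2 (io n x)) = x := by
  have h0 : WithLp.toLp 2 (io n x) = ((rp n).symm x : EuclideanSpace ℝ (Fin (n + 2))) := rfl
  have h1 : Tr n (WithLp.toLp 2 (io n x)) =
      rp n ((W n).orthogonalProjectionOnto (WithLp.toLp 2 (io n x))) := rfl
  rw [h1, h0]
  have h2 : (W n).orthogonalProjectionOnto ((rp n).symm x : EuclideanSpace ℝ (Fin (n + 2))) =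
      (rp n).symm x :=
    Submodule.orthogonalProjectionOnto_mem_subspace_eq_self _
  rw [h2, LinearIsometryEquiv.apply_symm_apply]

lemma P_mem (a : Fin (n + 2) → ℝ) : P a ∈ W n := by
  rw [mem_W]
  simp only [P_apply, sum_sub_distrib, sum_const, card_univ, Fintype.card_fin, nsmul_eq_mul]
  have : ((n + 2 : ℕ) : ℝ) ≠ 0 := by positivity
  field_simp
  ring

lemma nP_mem (a : Fin (n + 2) → ℝ) : nP a ∈ W n := (W n).smul_mem _ (P_mem n a)

end Transport

end Pool.Agent.W39.GP
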