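import Mathlib
import Pool.Agent.W39.GP.C

/-!
# Every homotopy class contains maps with a small gap potential
-/

set_option autoImplicit false

open Finset Filter Topology MeasureTheory
open scoped ENNReal unitInterval

namespace Pool.Agent.W39.GP

/-- the unit sphere of `ℝ^k` -/
abbrev Sph (k : ℕ) : Type := Metric.sphere (0 : EuclideanSpace ℝ (Fin k)) 1

section

variable (n : ℕ) (c : Fin (n + 2) → ℝ) (p : ℕ)

/-- the weights along the homotopy -/
noncomputable def wt (θ : ℝ) (x : EuclideanSpace ℝ (Fin (n + 1))) : Fin (n + 2) → ℝ :=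
  fun i => (1 - θ) * sc (io n x) i + θ * sh c p (io n x) i

lemma wt_cont : Continuous fun q : ℝ × EuclideanSpace ℝ (Fin (n + 1)) => wt n c p q.1 q.2 := by
  refine continuous_pi fun i => ?_
  unfold wt
  have h1 : Continuous fun q : ℝ × EuclideanSpace ℝ (Fin (n + 1)) => sc (io n q.2) i :=
    (sc_cont i).comp ((io_cont n).comp continuous_snd)
  have h2 : Continuous fun q : ℝ × EuclideanSpace ℝ (Fin (n + 1)) => sh c p (io n q.2) i := by
    unfold sh
    exact (continuous_const.mul h1).pow p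
  exact ((continuous_const.sub continuous_fst).mul h1).add (continuous_fst.mul h2)

variable {n c p}

lemma wt_pos (hc1 : ∀ i, 1 ≤ c i) (hp : 1 ≤ p) {θ : ℝ} (h0 : 0 ≤ θ) (h1 : θ ≤ 1)
    {x : EuclideanSpace ℝ (Fin (n + 1))} (hx : ‖x‖ = 1) : 0 < ‖P (wt n c p θ x)‖ := by
  have hs0 := io_sum n x
  have hs1 : ∑ i, io n x i ^ 2 = 1 := by rw [io_sq, hx, one_pow]
  obtain ⟨k, hk⟩ := sc_zero (io n x)
  obtain ⟨j, hj⟩ := sc_large hs0 hs1
  have hj' := sh_large (p := p) hc1 hj
  have hpos : (0 : ℝ) < 1 / √(n + 2 : ℕ) := by positivity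
  have hpos' : (0 : ℝ) < (1 / √(n + 2 : ℕ)) ^ p := by positivity
  refine P_pos (by omega) (k := k) (j := j) ?_ ?_
  · unfold wt
    rw [hk, sh_zero hp hk]
    ring
  · unfold wt
    rcases h0.lt_or_eq with h | h
    · have e1 : 0 ≤ (1 - θ) * sc (io n x) j := mul_nonneg (by linarith) (sc_nonneg _ _)
      have e2 : 0 < θ * sh c p (io n x) j := mul_pos h (hpos'.trans_le hj')
      linarith
    · rw [← h]
      have := hpos.trans_le hj
      simp only [sub_zero, one_mul, zero_mul, add_zero]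
      exact this.ne'

lemma wt_zero (x : EuclideanSpace ℝ (Fin (n + 1))) (hx : ‖x‖ = 1) : Tr n (nP (wt n c p 0 x)) = x := by
  have h1 : wt n c p 0 x = sc (io n x) := by
    funext i
    unfold wt
    ring
  have h2 : P (sc (io n x)) = WithLp.toLp 2 (io n x) := P_sc (io_sum n x)
  have h3 : ‖(WithLp.toLp 2 (io n x) : EuclideanSpace ℝ (Fin (n + 2)))‖ = 1 := by
    have h4 : ‖(WithLp.toLp 2 (io n x) : EuclideanSpace ℝ (Fin (n + 2)))‖ ^ 2 = 1 := by
      rw [EuclideanSpace.norm_sq_eq]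
      simp only [Real.norm_eq_abs, sq_abs]
      rw [io_sq, hx, one_pow]
    have h5 := norm_nonneg (WithLp.toLp 2 (io n x) : EuclideanSpace ℝ (Fin (n + 2)))
    nlinarith
  rw [h1]
  unfold nP
  rw [h2, h3, inv_one, one_smul, Tr_io]

lemma wt_one (x : EuclideanSpace ℝ (Fin (n + 1))) : wt n c p 1 x = sh c p (io n x) := by
  funext i
  unfold wt
  ring

/-- the map along the homotopy -/
noncomputable def mv {Y : Type*} [TopologicalSpace Y] (g : C(Y, Sph (n + 1))) (hc1 : ∀ i, 1 ≤ c i)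
    (hp : 1 ≤ p) : C(I × Y, Sph (n + 1)) where
  toFun q := ⟨Tr n (nP (wt n c p q.1 (g q.2))), by
    rw [mem_sphere_zero_iff_norm, Tr_norm n (nP_mem n _)]
    exact nP_norm (wt_pos hc1 hp q.1.2.1 q.1.2.2 (by simp))⟩
  continuous_toFun := by
    refine Continuous.subtype_mk ((Tr n).continuous.comp ?_) _
    rw [continuous_iff_continuousAt]
    intro q
    have h1 : 0 < ‖P (wt n c p q.1 (g q.2))‖ :=
      wt_pos hc1 hp q.1.2.1 q.1.2.2 (by simp)
    have h2 : Continuous fun q : I × Y => wt n c p q.1 (g q.2) :=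
      (wt_cont n c p).comp ((continuous_subtype_val.comp continuous_fst).prodMk
        (continuous_subtype_val.comp (g.continuous.comp continuous_snd)))
    exact ContinuousAt.comp (f := fun q : I × Y => wt n c p q.1 (g q.2)) (nP_contAt h1) h2.continuousAt

/-- the end of the homotopy -/
noncomputable def fin {Y : Type*} [TopologicalSpace Y] (g : C(Y, Sph (n + 1))) (hc1 : ∀ i, 1 ≤ c i)
    (hp : 1 ≤ p) : C(Y, Sph (n + 1)) :=
  (mv g hc1 hp).comp ⟨fun y => (1, y), by fun_prop⟩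

lemma fin_apply {Y : Type*} [TopologicalSpace Y] (g : C(Y, Sph (n + 1))) (hc1 : ∀ i, 1 ≤ c i)
    (hp : 1 ≤ p) (y : Y) :
    (fin g hc1 hp y : EuclideanSpace ℝ (Fin (n + 1))) = Tr n (nP (sh c p (io n (g y)))) := by
  have h1 : (fin g hc1 hp y : EuclideanSpace ℝ (Fin (n + 1))) =
      Tr n (nP (wt n c p ((1 : I) : ℝ) (g y))) := rfl
  rw [h1, Set.Icc.coe_one, wt_one]

lemma fin_homotopic {Y : Type*} [TopologicalSpace Y] (g : C(Y, Sph (n + 1))) (hc1 : ∀ i, 1 ≤ c i)
    (hp : 1 ≤ p) : (fin g hc1 hp).Homotopic g := by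
  refine ContinuousMap.Homotopic.symm ⟨{
    toContinuousMap := mv g hc1 hp
    map_zero_left := fun y => ?_
    map_one_left := fun y => rfl }⟩
  apply Subtype.ext
  have h1 : ((mv g hc1 hp (0, y) : Sph (n + 1)) : EuclideanSpace ℝ (Fin (n + 1))) =
      Tr n (nP (wt n c p ((0 : I) : ℝ) (g y))) := rfl
  have h2 : (mv g hc1 hp).toFun (0, y) = mv g hc1 hp (0, y) := rfl
  rw [h2, h1, Set.Icc.coe_zero]
  exact wt_zero _ (by simp)

lemma fin_dist {Y : Type*} [TopologicalSpace Y] (g : C(Y, Sph (n + 1))) (hc1 : ∀ i, 1 ≤ c i)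
    (hp : 1 ≤ p) (y z : Y) :
    dist (fin g hc1 hp y) (fin g hc1 hp z) =
      ‖nP (sh c p (io n (g y))) - nP (sh c p (io n (g z)))‖ := by
  rw [Subtype.dist_eq, dist_eq_norm, fin_apply, fin_apply, ← map_sub, Tr_norm]
  exact (W n).sub_mem (nP_mem n _) (nP_mem n _)

end

theorem small_gap {Y : Type*} [MetricSpace Y] [CompactSpace Y] [MeasurableSpace Y] [BorelSpace Y]
    (μ : Measure Y) [IsFiniteMeasure μ] {n : ℕ} (hn : 1 ≤ n) (g : C(Y, Sph (n + 1))) {ε : ℝ}
    (hε0 : 0 < ε) (hε : 4 * ((n : ℝ) + 2) / (n + 3) < ε ^ 2) (m : ℕ) {η : ℝ≥0∞} (hη : 0 < η) :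
    ∃ f : C(Y, Sph (n + 1)), f.Homotopic g ∧
      ∫⁻ q in {q : Y × Y | ε ≤ dist (f q.1) (f q.2)}, ENNReal.ofReal (1 / dist q.1 q.2 ^ m)
        ∂(μ.prod μ) < η := by
  set D : ℝ := √(4 * ((n + 2 : ℕ) : ℝ) / (((n + 2 : ℕ) : ℝ) + 1)) with hD
  have hDε : D < ε := by
    rw [hD, Real.sqrt_lt' hε0]
    push_cast
    have e1 : 4 * ((n : ℝ) + 2) / (n + 2 + 1) = 4 * ((n : ℝ) + 2) / (n + 3) := by ring
    rw [e1]
    exact hε
  have hN : (0 : ℝ) < ((n + 2 : ℕ) : ℝ) := by positivity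
  have hsN : 0 < √((n + 2 : ℕ) : ℝ) := Real.sqrt_pos.2 hN
  obtain ⟨r, hr0, hr1, hr2⟩ : ∃ r : ℝ, 0 < r ∧ 4 * r * √((n + 2 : ℕ) : ℝ) ≤ 1 ∧
      D + 8 * ((n + 2 : ℕ) : ℝ) * r < ε := by
    refine ⟨min (1 / (4 * √((n + 2 : ℕ) : ℝ))) ((ε - D) / (16 * ((n + 2 : ℕ) : ℝ))), ?_, ?_, ?_⟩
    · have : 0 < ε - D := by linarith
      positivity
    · have h1 := min_le_left (1 / (4 * √((n + 2 : ℕ) : ℝ))) ((ε - D) / (16 * ((n + 2 : ℕ) : ℝ)))
      rw [le_div_iff₀ (by positivity)] at h1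
      linarith
    · have h1 := min_le_right (1 / (4 * √((n + 2 : ℕ) : ℝ))) ((ε - D) / (16 * ((n + 2 : ℕ) : ℝ)))
      rw [le_div_iff₀ (by positivity)] at h1
      linarith
  obtain ⟨ρ, hρ, hunif⟩ := Metric.uniformContinuous_iff.1
    (CompactSpace.uniformContinuous_of_continuous g.continuous) r hr0
  have hmeas : ∀ i, Measurable fun y => sc (io n (g y)) i := fun i =>
    ((sc_cont i).comp ((io_cont n).comp (continuous_subtype_val.comp g.continuous))).measurable
  obtain ⟨t, ht, hgen⟩ := generic μ (by omega) (fun y => sc (io n (g y))) hmeas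
  set c : Fin (n + 2) → ℝ := fun i => 1 + (i : ℝ) * t with hc
  have hc1 : ∀ i, 1 ≤ c i := fun i => by
    rw [hc]
    have : 0 ≤ (i : ℝ) * t := mul_nonneg (by positivity) ht.1.le
    linarith
  have hc2 : ∀ i, c i ≤ 2 := fun i => by
    rw [hc]
    have h1 : (i : ℝ) ≤ ((n + 2 : ℕ) : ℝ) := by exact_mod_cast i.2.le
    have h2 : (i : ℝ) * t ≤ ((n + 2 : ℕ) : ℝ) * (1 / ((n + 2 : ℕ) : ℝ)) :=
      mul_le_mul h1 ht.2.le ht.1.le hN.le
    rw [mul_one_div_cancel hN.ne'] at h2
    linarith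
  have hg1 : ∀ y, ‖(g y : EuclideanSpace ℝ (Fin (n + 1)))‖ = 1 := fun y => by simp
  have hio1 : ∀ y, ∑ i, io n (g y) i ^ 2 = 1 := fun y => by rw [io_sq, hg1, one_pow]
  set f : ℕ → C(Y, Sph (n + 1)) := fun k => fin g hc1 (Nat.le_add_left 1 k) with hf
  set K : Y × Y → ℝ≥0∞ := fun q => ENNReal.ofReal (1 / dist q.1 q.2 ^ m) with hK
  have hKm : Measurable K := by
    refine ENNReal.measurable_ofReal.comp (measurable_const.div ?_)
    exact (measurable_fst.dist measurable_snd).pow_const m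
  have hS : ∀ k, MeasurableSet {q : Y × Y | ε ≤ dist (f k q.1) (f k q.2)} := fun k => by
    refine measurableSet_le measurable_const ?_
    exact (Continuous.dist ((f k).continuous.comp continuous_fst)
      ((f k).continuous.comp continuous_snd)).measurable
  set F : ℕ → Y × Y → ℝ≥0∞ := fun k => ({q : Y × Y | ε ≤ dist (f k q.1) (f k q.2)}).indicator K with hF
  have hFm : ∀ k, Measurable (F k) := fun k => hKm.indicator (hS k)
  have hbound : ∀ k, F k ≤ᵐ[μ.prod μ] fun _ => ENNReal.ofReal (1 / ρ ^ m) := by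
    intro k
    refine Eventually.of_forall fun q => ?_
    rw [hF]
    simp only [Set.indicator, Set.mem_ofPred_eq]
    split_ifs with hq
    · rw [hK]
      refine ENNReal.ofReal_le_ofReal ?_
      have h1 : ρ ≤ dist q.1 q.2 := by
        by_contra hcon
        push Not at hcon
        have h2 := hunif hcon
        rw [Subtype.dist_eq, dist_eq_norm] at h2
        have h3 := sh_close hc1 hc2 (p := k + 1) (by omega) (io_sum n (g q.1)) (hio1 q.1)
          (io_sum n (g q.2)) (hio1 q.2) (r := r) (fun i => (io_sub n _ _ i).trans h2.le) hr1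
        have h4 : dist (f k q.1) (f k q.2) =
            ‖nP (sh c (k + 1) (io n (g q.1))) - nP (sh c (k + 1) (io n (g q.2)))‖ :=
          fin_dist g hc1 (Nat.le_add_left 1 k) q.1 q.2
        rw [h4] at hq
        linarith
      gcongr
    · exact zero_le
  have hlim : ∀ᵐ q ∂(μ.prod μ), Tendsto (fun k => F k q) atTop (𝓝 0) := by
    have h1 := (Measure.quasiMeasurePreserving_fst (μ := μ) (ν := μ)).ae hgen
    have h2 := (Measure.quasiMeasurePreserving_snd (μ := μ) (ν := μ)).ae hgen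
    filter_upwards [h1, h2] with q hq1 hq2
    obtain ⟨j1, hj1⟩ := sh_tendsto (by omega) hc1 (io_sum n (g q.1)) (hio1 q.1)
      (fun i j hij h => hq1 i j hij h)
    obtain ⟨j2, hj2⟩ := sh_tendsto (by omega) hc1 (io_sum n (g q.2)) (hio1 q.2)
      (fun i j hij h => hq2 i j hij h)
    have h3 : Tendsto (fun k => dist (f k q.1) (f k q.2)) atTop (𝓝 ‖vx j1 - vx j2‖) := by
      have h4 : (fun k => dist (f k q.1) (f k q.2)) = fun k =>
          ‖nP (sh c (k + 1) (io n (g q.1))) - nP (sh c (k + 1) (io n (g q.2)))‖ := by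
        funext k
        exact fin_dist g hc1 (Nat.le_add_left 1 k) q.1 q.2
      rw [h4]
      exact ((hj1.comp (tendsto_add_atTop_nat 1)).sub (hj2.comp (tendsto_add_atTop_nat 1))).norm
    have h5 : ‖vx j1 - vx j2‖ < ε := (vx_dist (by omega) j1 j2).trans_lt hDε
    have h6 : ∀ᶠ k in atTop, F k q = 0 := by
      filter_upwards [h3.eventually (gt_mem_nhds h5)] with k hk
      rw [hF]
      simp only [Set.indicator, Set.mem_ofPred_eq]
      rw [if_neg (not_le.2 hk)]
    exact tendsto_const_nhds.congr' (h6.mono fun k hk => hk.symm)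
  have hdom := tendsto_lintegral_of_dominated_convergence (μ := μ.prod μ)
    (fun _ => ENNReal.ofReal (1 / ρ ^ m)) hFm hbound
    (by
      rw [lintegral_const]
      exact ENNReal.mul_ne_top ENNReal.ofReal_ne_top (measure_ne_top _ _)) hlim
  rw [lintegral_zero] at hdom
  obtain ⟨k, hk⟩ := (hdom.eventually (gt_mem_nhds hη)).exists
  refine ⟨f k, fin_homotopic g hc1 _, ?_⟩
  rw [← lintegral_indicator (hS k)]
  exact hk

end Pool.Agent.W39.GP
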